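import Mathlib

namespace Pool.Agent.H.MP_87c4bd_co

open MeasureTheory ProbabilityTheory Set Real

universe u

lemma intg {A : Type u} [MeasurableSpace A] (μ : Measure A) [IsFiniteMeasure μ] {f : A → ℝ}
    (hf : Measurable f) {a b : ℝ} (h : ∀ x, f x ∈ Icc a b) : Integrable f μ :=
  memLp_one_iff_integrable.1 (memLp_of_bounded (ae_of_all _ h) hf.aestronglyMeasurable 1)

lemma log_le (y c : ℝ) (hy : 0 < y) (hc : 0 < c) : log y ≤ y / c - 1 + log c := by
  have := log_le_sub_one_of_pos (div_pos hy hc)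
  rw [log_div hy.ne' hc.ne'] at this
  linarith

variable {Ω : Type u} [MeasurableSpace Ω] (ν : Measure Ω) [IsProbabilityMeasure ν] {l : ℕ}

lemma intS {g : Fin l → Ω → ℝ} (mg : ∀ i, Measurable (g i)) {M : ℝ} (gi : ∀ i x, g i x ∈ Icc 0 M)
    (i : Fin l) : Integrable (fun x : Fin l → Ω => g i (x i)) (Measure.pi fun _ => ν) :=
  intg _ ((mg i).comp (measurable_pi_apply i)) (fun x => gi i (x i))

lemma piece {y : Fin l → Ω → ℝ} (my : ∀ i, Measurable (y i)) {M : ℝ}
    (yi : ∀ i x, y i x ∈ Icc 1 (exp M)) (J : Fin l → Set Ω) (hJ : ∀ i, MeasurableSet (J i))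
    (D : Set (Fin l → Ω)) (sD : D ⊆ univ.pi J) (p : ℝ) (hp : p = (Measure.pi fun _ => ν).real D)
    (h : 0 < p) :
    ∫ x in D, ∑ i, log (y i (x i)) ∂(Measure.pi fun _ => ν) ≤
      p * (∑ i, (∫ x, (J i).indicator (y i) x ∂ν - 1) - log p) := by
  have mB : MeasurableSet (univ.pi J) := MeasurableSet.univ_pi hJ
  have yp : ∀ i x, 0 < y i x := fun i x => one_pos.trans_le (yi i x).1
  have ib : ∀ i, Integrable (y i) ν := fun i => intg ν (my i) (yi i)
  have iS : Integrable (fun x : Fin l → Ω => ∑ i, log (y i (x i))) (Measure.pi fun _ => ν) :=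
    integrable_finset_sum _ fun i _ => intS ν (g := fun i x => log (y i x)) (M := M)
      (fun i => (my i).log) (fun i x => ⟨log_nonneg (yi i x).1,
        (log_le_iff_le_exp (yp i x)).2 (yi i x).2⟩) i
  have Yp : ∀ x : Fin l → Ω, 0 < ∏ i, y i (x i) := fun x => Finset.prod_pos fun i _ => yp i _
  have iY : Integrable (fun x : Fin l → Ω => ∏ i, y i (x i)) (Measure.pi fun _ => ν) :=
    intg _ (Finset.measurable_prod _ fun i _ =>
    ((my i).comp (measurable_pi_apply i))) (a := 0) (b := ∏ _i : Fin l, exp M) fun x =>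
    ⟨(Yp x).le, Finset.prod_le_prod (fun i _ => (yp i _).le) fun i _ => (yi i _).2⟩
  obtain ⟨t, ht⟩ : ∃ t : Fin l → ℝ, ∀ i, t i = ∫ x, (J i).indicator (y i) x ∂ν := ⟨_, fun _ => rfl⟩
  simp only [← ht]
  have YB : ∫ x in univ.pi J, ∏ i, y i (x i) ∂(Measure.pi fun _ => ν) = ∏ i, t i := by
    simp only [ht]
    rw [← integral_indicator mB, ← integral_fintype_prod_eq_prod]
    refine integral_congr_ae (ae_of_all _ fun x => ?_)
    by_cases h : x ∈ univ.pi J
    · simp only [indicator_of_mem h]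
      exact Finset.prod_congr rfl fun i _ => (indicator_of_mem (h i (mem_univ _)) (y i)).symm
    · simp only [indicator_of_notMem h]
      obtain ⟨i, hi⟩ : ∃ i, x i ∉ J i := by simpa using h
      exact (Finset.prod_eq_zero (Finset.mem_univ i) (indicator_of_notMem hi _)).symm
  have tp : ∀ i, 0 < t i := by
    intro i
    have h1 : 0 < ν.real (J i) := by
      have h2 : p ≤ (Measure.pi fun _ => ν).real (univ.pi J) := hp ▸ measureReal_mono sD
      have h3 : (Measure.pi fun _ => ν).real (univ.pi J) = ∏ i, ν.real (J i) := by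
        simp only [Measure.real, Measure.pi_pi, ENNReal.toReal_prod]
      refine lt_of_le_of_ne measureReal_nonneg fun e => ?_
      rw [h3, Finset.prod_eq_zero (Finset.mem_univ i) e.symm] at h2
      linarith
    refine h1.trans_le ?_
    rw [← integral_indicator_one (hJ i), ht]
    refine integral_mono ((integrable_const 1).indicator (hJ i)) ((ib i).indicator (hJ i))
      fun x => ?_
    by_cases hx : x ∈ J i <;> simp [hx, (yi i x).1]
  have Tp : 0 < ∏ i, t i := Finset.prod_pos fun i _ => tp i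
  obtain ⟨T, hT⟩ : ∃ T, T = ∏ i, t i := ⟨_, rfl⟩
  rw [← hT] at Tp YB
  have j1 := (iY.div_const (T / p)).integrableOn (s := D)
  have e1 : ∫ x in D, ∑ i, log (y i (x i)) ∂(Measure.pi fun _ => ν) ≤
      ∫ x in D, ((∏ i, y i (x i)) / (T / p) + (log (T / p) - 1)) ∂(Measure.pi fun _ => ν) :=
    integral_mono iS.integrableOn (j1.add (integrable_const _)) fun x => by
      have := log_le _ _ (Yp x) (div_pos Tp h)
      rw [log_prod fun i _ => (yp i _).ne'] at this
      simp only; linarith
  rw [integral_add j1 (integrable_const _), integral_div] at e1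
  simp only [integral_const, MeasurableSet.univ, measureReal_restrict_apply, univ_inter,
    smul_eq_mul, ← hp] at e1
  have e2 : ∫ x in D, ∏ i, y i (x i) ∂(Measure.pi fun _ => ν) ≤ T := by
    rw [← YB]
    exact setIntegral_mono_set iY.integrableOn (ae_of_all _ fun x => (Yp x).le) sD.eventuallyLE
  have e3 : (∫ x in D, ∏ i, y i (x i) ∂(Measure.pi fun _ => ν)) / (T / p) ≤ p := by
    rw [div_le_iff₀ (div_pos Tp h), mul_div_cancel₀ _ h.ne']; exact e2
  have e4 : log (T / p) ≤ ∑ i, (t i - 1) - log p := by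
    rw [log_div Tp.ne' h.ne', hT, log_prod fun i _ => (tp i).ne']
    exact sub_le_sub_right (Finset.sum_le_sum fun i _ => log_le_sub_one_of_pos (tp i)) _
  have := mul_le_mul_of_nonneg_left e4 h.le
  linarith

lemma low {g : Fin l → Ω → ℝ} (mg : ∀ i, Measurable (g i)) {M : ℝ} (gi : ∀ i x, g i x ∈ Icc 0 M)
    (U : Set (Fin l → Ω)) {c : ℝ} (hc : 0 < c) :
    (Measure.pi fun _ => ν).real U * ∑ i, ∫ x, g i x ∂ν ≤
      ∫ x in U, ∑ i, g i (x i) ∂(Measure.pi fun _ => ν) + l * M ^ 2 / (2 * c) + c / 2 := by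
  obtain ⟨S, hS⟩ : ∃ S : (Fin l → Ω) → ℝ, S = fun x => ∑ i, g i (x i) := ⟨_, rfl⟩
  obtain ⟨m, hm⟩ : ∃ m, m = ∑ i, ∫ x, g i x ∂ν := ⟨_, rfl⟩
  have iS : Integrable S (Measure.pi fun _ => ν) :=
    hS ▸ integrable_finset_sum _ fun i _ => intS ν mg gi i
  have Sm : ∫ x, S x ∂(Measure.pi fun _ => ν) = m := by
    rw [hS, hm, integral_finset_sum _ fun i _ => intS ν mg gi i]
    exact Finset.sum_congr rfl fun i _ =>
      integral_comp_eval (μ := fun _ => ν) (mg i).aestronglyMeasurable
  have mS : MemLp S 2 (Measure.pi fun _ => ν) := hS ▸ memLp_finset_sum _ fun i _ => memLp_of_bounded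
    (ae_of_all _ fun x : Fin l → Ω => gi i (x i)) ((mg i).comp (measurable_pi_apply i)).aestronglyMeasurable 2
  have var : ∫ x, (S x - m) ^ 2 ∂(Measure.pi fun _ => ν) ≤ l * M ^ 2 := by
    rw [← Sm, ← variance_eq_integral iS.aemeasurable]
    have := variance_sum_pi (μ := fun _ : Fin l => ν) (X := g) fun i =>
      memLp_of_bounded (ae_of_all _ (gi i)) (mg i).aestronglyMeasurable 2
    have e : S = ∑ i, fun ω : Fin l → Ω => g i (ω i) := by ext; simp [hS]
    rw [e, this]
    refine (Finset.sum_le_sum (g := fun _ => M ^ 2) fun i _ =>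
      (variance_le_sq_of_bounded (ae_of_all _ (gi i)) (mg i).aemeasurable).trans ?_).trans (by simp)
    nlinarith [sq_nonneg M]
  have i2 : Integrable (fun x => (S x - m) ^ 2) (Measure.pi fun _ => ν) :=
    (mS.sub (memLp_const m)).integrable_sq
  have low : ∫ x in U, (m - S x) ∂(Measure.pi fun _ => ν) ≤ l * M ^ 2 / (2 * c) + c / 2 := by
    have i3 : Integrable (fun x => (S x - m) ^ 2 / (2 * c) + c / 2) (Measure.pi fun _ => ν) :=
      (i2.div_const _).add (integrable_const _)
    refine (integral_mono ((integrable_const m).sub iS).integrableOn i3.integrableOn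
      fun x => ?_).trans ((setIntegral_le_integral i3 (ae_of_all _ fun x => by positivity)).trans ?_)
    · simp only [Pi.sub_apply]
      rw [div_add' _ _ _ (by positivity), le_div_iff₀ (by positivity)]
      nlinarith [sq_nonneg (S x - m + c)]
    · rw [integral_add (i2.div_const _) (integrable_const _), integral_div]
      simp only [integral_const, probReal_univ, smul_eq_mul, one_mul]
      gcongr
  rw [integral_sub (integrable_const m).integrableOn iS.integrableOn] at low
  simp only [integral_const, MeasurableSet.univ, measureReal_restrict_apply, univ_inter,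
    smul_eq_mul] at low
  rw [← hm]
  simp only [hS] at low
  linarith

lemma core {N : ℕ}
    (J : Fin N → Fin l → Set Ω) (hJ : ∀ k i, MeasurableSet (J k i)) (M c : ℝ) (hM : 0 ≤ M)
    (hc : 0 < c) (u : ℝ) (hu : u = (Measure.pi fun _ : Fin l => ν).real (⋃ k, univ.pi (J k)))
    (hu0 : 0 < u) :
    ∃ q : Fin N → ℝ, (∀ k, 0 ≤ q k) ∧ ∑ k, q k = 1 ∧
      u * ∑ i, ∫ x, -log (max (∑ k, q k * (J k i).indicator 1 x) (exp (-M))) ∂ν ≤
        u * log (N / u) + l * M ^ 2 / (2 * c) + c / 2 := by
  have mB : ∀ k, MeasurableSet (univ.pi (J k)) := fun k => MeasurableSet.univ_pi (hJ k)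
  obtain ⟨D, hD⟩ : ∃ D, D = disjointed (fun k => univ.pi (J k)) := ⟨_, rfl⟩
  have mD : ∀ k, MeasurableSet (D k) := fun k => by
    simp only [hD, disjointed_eq_inter_compl]
    exact (mB k).inter (MeasurableSet.iInter fun j => MeasurableSet.iInter fun _ => (mB j).compl)
  have dD : Pairwise (Function.onFun Disjoint D) := hD ▸ disjoint_disjointed _
  have uD : ⋃ k, D k = ⋃ k, univ.pi (J k) := hD ▸ iUnion_disjointed
  have sD : ∀ k, D k ⊆ univ.pi (J k) := hD ▸ disjointed_subset _
  obtain ⟨p, hp⟩ : ∃ p : Fin N → ℝ, ∀ k, p k = (Measure.pi fun _ : Fin l => ν).real (D k) :=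
    ⟨_, fun _ => rfl⟩
  have p0 : ∀ k, 0 ≤ p k := fun k => hp k ▸ measureReal_nonneg
  have split : ∀ f : (Fin l → Ω) → ℝ, Integrable f (Measure.pi fun _ : Fin l => ν) →
      ∫ x in ⋃ k, univ.pi (J k), f x ∂(Measure.pi fun _ : Fin l => ν) =
        ∑ k, ∫ x in D k, f x ∂(Measure.pi fun _ : Fin l => ν) := fun f hf => by
    rw [← uD, integral_iUnion_fintype mD dD (fun k => hf.integrableOn)]
  have ps : ∑ k, p k = u := by
    have := split (fun _ => 1) (integrable_const _)
    simp only [integral_const, MeasurableSet.univ, measureReal_restrict_apply, univ_inter,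
      smul_eq_mul, mul_one, ← hp] at this
    rw [hu, this]
  have hN : (0 : ℝ) < N := by
    rcases Nat.eq_zero_or_pos N with rfl | h
    · simp at ps; linarith
    · exact_mod_cast h
  obtain ⟨q, hq⟩ : ∃ q : Fin N → ℝ, ∀ k, q k = p k / u := ⟨_, fun _ => rfl⟩
  have q0 : ∀ k, 0 ≤ q k := fun k => hq k ▸ div_nonneg (p0 k) hu0.le
  have qs : ∑ k, q k = 1 := by simp only [hq]; rw [← Finset.sum_div, ps, div_self hu0.ne']
  refine ⟨q, q0, qs, ?_⟩
  obtain ⟨a, ha⟩ : ∃ a : Fin l → Ω → ℝ, ∀ i x, a i x = ∑ k, q k * (J k i).indicator 1 x :=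
    ⟨_, fun _ _ => rfl⟩
  simp only [← ha]
  have ma : ∀ i, Measurable (a i) := fun i => by
    rw [funext (ha i)]
    exact Finset.measurable_sum _ fun k _ => measurable_const.mul (measurable_one.indicator (hJ k i))
  have a1 : ∀ i x, a i x ≤ 1 := fun i x => by
    rw [← qs, ha]
    refine Finset.sum_le_sum fun k _ => mul_le_of_le_one_right (q0 k) ?_
    exact indicator_le_self' (fun _ _ => zero_le_one) x
  obtain ⟨y, hy⟩ : ∃ y : Fin l → Ω → ℝ, ∀ i x, y i x = (max (a i x) (exp (-M)))⁻¹ :=
    ⟨_, fun _ _ => rfl⟩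
  simp only [← log_inv, ← hy]
  have my : ∀ i, Measurable (y i) := fun i => by
    rw [funext (hy i)]; exact ((ma i).max measurable_const).inv
  have bp : ∀ i x, 0 < max (a i x) (exp (-M)) := fun i x => (exp_pos _).trans_le (le_max_right _ _)
  have yi : ∀ i x, y i x ∈ Icc 1 (exp M) := fun i x => by
    rw [hy]
    refine ⟨(one_le_inv₀ (bp i x)).2 (max_le (a1 i x) (exp_le_one_iff.2 (by linarith))), ?_⟩
    rw [inv_le_comm₀ (bp i x) (exp_pos _), ← exp_neg]; exact le_max_right _ _
  have gi : ∀ i x, log (y i x) ∈ Icc 0 M := fun i x => ⟨log_nonneg (yi i x).1,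
    (log_le_iff_le_exp (one_pos.trans_le (yi i x).1)).2 (yi i x).2⟩
  have ib : ∀ i, Integrable (y i) ν := fun i => intg ν (my i) (yi i)
  obtain ⟨t, ht⟩ : ∃ t : Fin N → Fin l → ℝ, ∀ k i, t k i = ∫ x, (J k i).indicator (y i) x ∂ν :=
    ⟨_, fun _ _ => rfl⟩
  have ts : ∀ i, ∑ k, q k * t k i ≤ 1 := by
    intro i
    simp only [ht, ← integral_const_mul]
    rw [← integral_finset_sum _ fun k _ => ((ib i).indicator (hJ k i)).const_mul _]
    refine (integral_mono (integrable_finset_sum _ fun k _ =>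
      ((ib i).indicator (hJ k i)).const_mul _) (integrable_const (1 : ℝ)) fun x => ?_).trans (by simp)
    have : ∑ k, q k * (J k i).indicator (y i) x = a i x * y i x := by
      simp only [ha, Finset.sum_mul]
      refine Finset.sum_congr rfl fun k _ => ?_
      by_cases h : x ∈ J k i <;> simp [h]
    simp only [this, hy]
    rw [mul_inv_le_iff₀ (bp i x), one_mul]
    exact le_max_left _ _
  have pc : ∀ k, ∫ x in D k, ∑ i, log (y i (x i)) ∂(Measure.pi fun _ : Fin l => ν) ≤
      u * ∑ i, (q k * t k i - q k) + (u / N - p k + p k * log (N / u)) := by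
    intro k
    rcases (p0 k).eq_or_lt with h | h
    · have : (Measure.pi fun _ : Fin l => ν) (D k) = 0 :=
        (measureReal_eq_zero_iff).1 ((hp k).symm.trans h.symm)
      rw [setIntegral_measure_zero _ this]
      simp only [hq, ← h]; simp; positivity
    have e1 := piece ν my yi (J k) (hJ k) (D k) (sD k) (p k) (hp k) h
    simp only [← ht] at e1
    have e5 : -log (p k) ≤ u / N / p k - 1 + log (N / u) := by
      have := log_le_sub_one_of_pos (div_pos (div_pos hu0 hN) h)
      rw [log_div (div_pos hu0 hN).ne' h.ne'] at this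
      rw [← inv_div u, log_inv]
      linarith
    have e6 : u * ∑ i, (q k * t k i - q k) = p k * ∑ i, (t k i - 1) := by
      rw [Finset.mul_sum, Finset.mul_sum]
      refine Finset.sum_congr rfl fun i _ => ?_
      simp only [hq]; field_simp
    have e7 : p k * (u / N / p k) = u / N := by field_simp
    rw [e6]
    have := mul_le_mul_of_nonneg_left e5 h.le
    linarith
  have up : ∫ x in ⋃ k, univ.pi (J k), ∑ i, log (y i (x i)) ∂(Measure.pi fun _ : Fin l => ν) ≤
      u * log (N / u) := by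
    rw [split _ (integrable_finset_sum _ fun i _ => intS ν (fun i => (my i).log) gi i)]
    refine (Finset.sum_le_sum fun k _ => pc k).trans ?_
    simp only [Finset.sum_add_distrib, Finset.sum_sub_distrib, ← Finset.mul_sum, ← Finset.sum_mul,
      ps, Finset.sum_const, Finset.card_univ, Fintype.card_fin, nsmul_eq_mul, qs]
    simp only [Finset.mul_sum]
    rw [Finset.sum_comm, mul_div_cancel₀ _ hN.ne']
    have : ∑ i, ∑ k, q k * t k i ≤ l := by
      refine (Finset.sum_le_sum fun i _ => ts i).trans (by simp)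
    have := mul_le_mul_of_nonneg_left this hu0.le
    linarith
  have := low ν (g := fun i x => log (y i x)) (fun i => (my i).log) gi (⋃ k, univ.pi (J k)) hc
  rw [← hu] at this
  linarith

end Pool.Agent.H.MP_87c4bd_co
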